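import Pool.Agent.W544.FF.Final

/-!
# Families of surfaces and abelian varieties: flat families of Hodge classes
-/

open Matrix Finset Module

namespace Pool.Agent.W547.VHC

open Pool.Agent.W544.PG Pool.Agent.W544.FF Pool.Agent.W143.PG

/-- separation of the variables of a Hodge class whose slices on the surfaces are killed by the
Hodge operator -/
theorem sepA {n w s m l : ℕ} (T : HS n) (W : HW w)
    (t : (Fin m → Fin s ⊕ Fin n) → (Fin l → Fin w) → ℚ) (ht : IsHodgeX T W t)
    (hx : ∀ L, act (T.xS s) (cx fun J => t J L) = 0) (J : Fin m → Fin s ⊕ Fin n) :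
    W.IsHodge (t J) := by
  have hkill : aN (xT T W s) (fun J => (hat t J : ℂ)) = 0 := by
    rw [kil_iff]
    refine MultilinearMap.ext fun v => ?_
    choose f e hfe hG using fun j => dec T W s (v j)
    have h1 : v = fun j => ∑ r, f j r := funext fun j => hfe j
    rw [h1, MultilinearMap.map_sum, _root_.zero_apply]
    refine sum_eq_zero fun r _ => ?_
    rw [Dr_eigen (xT T W s) _ (fun j => f j (r j)) (fun j => e j (r j))
      (fun j => (hG j (r j)).eigen)]
    by_cases h3 : ∑ j, e j (r j) = 0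
    · rw [h3, zero_mul]
    · have h4 : EE (fun J => (hat t J : ℂ)) (fun j => f j (r j)) = 0 := by
        rw [EE_hat]
        by_cases hb1 : ∃ j : Fin m, ∀ q, f (Sum.inl j) (r (Sum.inl j)) (Sum.inl q) = 0
        · obtain ⟨j, hj⟩ := hb1
          refine sum_eq_zero fun J _ => sum_eq_zero fun L _ => ?_
          rw [prod_eq_zero (mem_univ j) (hj (J j)), zero_mul, mul_zero]
        by_cases hb2 : ∃ i : Fin l, ∀ q, f (Sum.inr i) (r (Sum.inr i)) (Sum.inr q) = 0
        · obtain ⟨i, hi⟩ := hb2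
          refine sum_eq_zero fun J _ => sum_eq_zero fun L _ => ?_
          rw [prod_eq_zero (mem_univ i) (hi (L i)), mul_zero, mul_zero]
        have hA : ∀ j : Fin m, ∃ (a : ℤ) (u : Fin s ⊕ Fin n → ℂ),
            f (Sum.inl j) (r (Sum.inl j)) = Sum.elim u 0 ∧ T.xS s *ᵥ u = (a : ℂ) • u ∧
            e (Sum.inl j) (r (Sum.inl j)) = a := by
          intro j
          rcases hG (Sum.inl j) (r (Sum.inl j)) with h5 | ⟨b, v', h5, _, _⟩
          · exact h5
          · exfalso
            exact hb1 ⟨j, fun q => by rw [h5]; rfl⟩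
        have hB : ∀ i : Fin l, ∃ (b : ℤ) (v : Fin w → ℂ),
            f (Sum.inr i) (r (Sum.inr i)) = Sum.elim (0 : Fin s ⊕ Fin n → ℂ) v ∧
            (2 : ℂ) • (W.y *ᵥ v) = (b : ℂ) • v ∧ 2 * e (Sum.inr i) (r (Sum.inr i)) = b := by
          intro i
          rcases hG (Sum.inr i) (r (Sum.inr i)) with ⟨a, u, h5, _, _⟩ | h5
          · exfalso
            exact hb2 ⟨i, fun q => by rw [h5]; rfl⟩
          · exact h5
        choose a u hu1 hu2 hu3 using hA
        choose b v' hv1 hv2 hv3 using hB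
        have h6 := ht u v' a b hu2 hv2 (by
          intro h7
          apply h3
          rw [Fintype.sum_sum_type]
          have h8 : (2 : ℂ) * ∑ j, (a j : ℂ) + ∑ i, (b i : ℂ) = 0 := by
            have := congrArg (fun z : ℤ => (z : ℂ)) h7
            push_cast at this
            exact this
          have h9 : ∑ j, e (Sum.inl j) (r (Sum.inl j)) = ∑ j, (a j : ℂ) :=
            sum_congr rfl fun j _ => hu3 j
          have h10 : 2 * ∑ i, e (Sum.inr i) (r (Sum.inr i)) = ∑ i, (b i : ℂ) := by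
            rw [mul_sum]
            exact sum_congr rfl fun i _ => hv3 i
          rw [h9]
          linear_combination (1 / 2 : ℂ) * h8 + (1 / 2 : ℂ) * h10)
        rw [← h6]
        refine sum_congr rfl fun J _ => sum_congr rfl fun L _ => ?_
        congr 2
        · exact prod_congr rfl fun j _ => by rw [hu1]; rfl
        · exact prod_congr rfl fun i _ => by rw [hv1]; rfl
      rw [h4, mul_zero]
  have hy : ∀ J, act W.y (cx (t J)) = 0 := by
    intro J
    funext L
    have h1 := congrFun hkill (mk J L)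
    unfold xT at h1
    rw [aN_hat, hx L] at h1
    simpa using h1
  revert J
  intro J v b hv hb
  have h1 : aN W.y (cx (t J)) = 0 := hy J
  refine killed h1 v (fun i => (b i : ℂ) / 2) (fun i => ?_) (by
    intro h2
    apply hb
    rw [← sum_div, div_eq_zero_iff] at h2
    rcases h2 with h2 | h2
    · exact_mod_cast h2
    · exact absurd h2 two_ne_zero)
  have h3 := hv i
  funext q
  have h4 := congrFun h3 q
  simp only [Pi.smul_apply, smul_eq_mul] at h4 ⊢
  linear_combination (1 / 2 : ℂ) * h4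


variable {B : Type} {n r w s m l k : ℕ} {c : Fin n → Fin r} {p q : Fin r → ℕ}

/-- The classes in `algE` are killed by the Hodge operator. -/
theorem act_algE (T : HS n) (hbQ : BD c T.Q) (hbx : BD c T.x) (d : Fin s → Fin r)
    (a : Fin m → Fin r) (D : Finset (Fin r)) (t : (Fin m → Fin s ⊕ Fin n) → ℚ)
    (ht : t ∈ algE T.Q c d a D) : act (T.xS s) (cx t) = 0 := by
  have hdet : (mC T.Q).det ≠ 0 := by
    rw [det_mC]
    exact_mod_cast W74.PG.det_ne T
  have hs : (mC T.Q)ᵀ = mC T.Q := by rw [mC_T, T.symm]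
  exact W863.FF.cnd ℂ n r s m c d a (mC T.Q) T.x hbQ.mC hbx hs T.skew
    (W839.FF.trz ℂ n r c (mC T.Q) T.x hbQ.mC hbx hs hdet T.skew) (fun J => ((t J : ℚ) : ℂ))
    (algD_map (Rat.castHom ℂ) T.Q d a t (algE_le _ _ _ _ _ ht))

/-- The classes in `algE` are Hodge classes. -/
theorem hodge_algE (T : HS n) (hbQ : BD c T.Q) (hbx : BD c T.x) (d : Fin s → Fin r)
    (a : Fin m → Fin r) (D : Finset (Fin r)) (t : (Fin m → Fin s ⊕ Fin n) → ℚ)
    (ht : t ∈ algE T.Q c d a D) : T.IsHodgeS t := by
  intro v e he hne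
  have h1 := act_algE T hbQ hbx d a D t ht
  have h2 := W374.PG.ev_act (T.xS s) t v (fun j => (e j : ℂ)) he
  have h3 : ∑ J, act (T.xS s) (cx t) J * ∏ j, v j (J j) = 0 := by
    refine Finset.sum_eq_zero fun J _ => ?_
    rw [h1, Pi.zero_apply, zero_mul]
  rw [h3] at h2
  refine (mul_eq_zero.1 h2).resolve_left ?_
  rw [← Int.cast_sum]
  exact_mod_cast hne

/-- Sums of products of classes in `algE` and of rational alternating `l`-linear forms `β` on
`H^1(A)` which are Hodge classes on all members of the family `A_b`. -/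
def flatX (Q : Matrix (Fin n) (Fin n) ℚ) (W : B → HW w) (c : Fin n → Fin r) (d : Fin s → Fin r)
    (a : Fin m → Fin r) (D : Finset (Fin r)) (l : ℕ) :
    Submodule ℚ ((Fin m → Fin s ⊕ Fin n) → (Fin l → Fin w) → ℚ) :=
  Submodule.span ℚ {f | ∃ α ∈ algE Q c d a D, ∃ β : (Fin l → Fin w) → ℚ,
    (∀ b, (W b).IsHodge β) ∧ IsAlt β ∧ f = fun J L => α J * β L}

/-- Classes in `flatX` are Hodge classes on all fibres. -/
theorem hodge_flatX (Q : Matrix (Fin n) (Fin n) ℚ) (T : HS n) (hQ : T.Q = Q)
    (hbQ : BD c Q) (hbx : BD c T.x) (W : B → HW w) (b : B) (d : Fin s → Fin r)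
    (a : Fin m → Fin r) (D : Finset (Fin r)) (t : (Fin m → Fin s ⊕ Fin n) → (Fin l → Fin w) → ℚ)
    (ht : t ∈ flatX Q W c d a D l) : IsHodgeX T (W b) t := by
  subst hQ
  have hcnv := W374.PG.cnv n r w s m l T (W b) c d a hbQ hbx
  induction ht using Submodule.span_induction with
  | mem f h =>
    obtain ⟨α, hα, β, hβ, _, rfl⟩ := h
    exact hcnv.2 α β (hodge_algE T hbQ hbx d a D α hα) (hβ b)
  | zero =>
    intro u v a b _ _ _
    simp
  | add f g _ _ hf hg =>
    intro u v a b h1 h2 h3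
    have h4 := hf u v a b h1 h2 h3
    have h5 := hg u v a b h1 h2 h3
    simp only [Pi.add_apply, Rat.cast_add, add_mul, Finset.sum_add_distrib]
    rw [h4, h5, add_zero]
  | smul z f _ hf =>
    intro u v a b h1 h2 h3
    have h4 := hf u v a b h1 h2 h3
    simp only [Pi.smul_apply, smul_eq_mul, Rat.cast_mul, mul_assoc, ← Finset.mul_sum] at h4 ⊢
    rw [h4, mul_zero]

/-- the slices of a class in `algXE` -/
theorem slice_algXE (T : HS n) (W : HW w) (d : Fin s → Fin r) (a : Fin m → Fin r)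
    (D : Finset (Fin r)) (t : (Fin m → Fin s ⊕ Fin n) → (Fin l → Fin w) → ℚ)
    (ht : t ∈ algXE T W c d a D l) (L : Fin l → Fin w) :
    (fun J => t J L) ∈ algE T.Q c d a D := by
  induction ht using Submodule.span_induction with
  | mem f h =>
    obtain ⟨α, hα, β, _, _, rfl⟩ := h
    have h1 : (fun J => α J * β L) = β L • α := by
      funext J
      rw [Pi.smul_apply, smul_eq_mul, mul_comm]
    change (fun J => α J * β L) ∈ _
    rw [h1]
    exact Submodule.smul_mem _ _ hα
  | zero => exact Submodule.zero_mem _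
  | add f g _ _ hf hg => exact Submodule.add_mem _ hf hg
  | smul z f _ hf => exact Submodule.smul_mem _ z hf

/-- **Flat families of Hodge classes.** -/
theorem main (Q : Matrix (Fin n) (Fin n) ℚ) (T : B → HS n) (hQ : ∀ b, (T b).Q = Q)
    (hbx : ∀ b, BD c (T b).x) (W : B → HW w) (b₀ : B) (hT : (T b₀).Big c p q)
    (hpl : l = 0 ∨ ∀ i, 2 ≤ p i) (d : Fin s → Fin r) (a : Fin m → Fin r) (f : Fin m → Fin k)
    (hf : ∀ j j', f j = f j' → a j = a j') (D : Finset (Fin r))
    (t : (Fin m → Fin s ⊕ Fin n) → (Fin l → Fin w) → ℚ)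
    (hta : ∀ J L, t J L ≠ 0 → ∀ j, Sum.elim d c (J j) = a j)
    (hsym : ∀ π : Equiv.Perm (Fin m), (∀ j, f (π j) = f j) →
      ∀ J, t (fun j => J (π j)) = t J)
    (htr : ∀ J L, t J L ≠ 0 → ∀ i, i ∉ D →
      (univ.filter fun y : Fin k => ∃ j b, f j = y ∧ J j = Sum.inr b ∧ c b = i).card <
        2 * p i + q i) (halt : ∀ J, IsAlt (t J)) :
    (∀ b, IsHodgeX (T b) (W b) t) ↔ t ∈ flatX Q W c d a D l := by
  have hbQ : BD c Q := by
    rw [← hQ b₀]
    exact hT.bQ
  constructor
  · intro h
    have h0 := (hcAF hT (W b₀) hpl d a f D hf t hta hsym htr halt).1 (h b₀)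
    have hU : ∀ L, (fun J => t J L) ∈ algE Q c d a D := by
      intro L
      have h1 := slice_algXE (T b₀) (W b₀) d a D t h0 L
      rwa [hQ b₀] at h1
    have hW : ∀ J b, (W b).IsHodge (t J) := by
      intro J b
      refine sepA (T b) (W b) t (h b) (fun L => ?_) J
      have h1 := hU L
      rw [← hQ b] at h1
      exact act_algE (T b) (by rw [hQ b]; exact hbQ) (hbx b) d a D _ h1
    have h1 := W748.PG5.ten _ _ (algE Q c d a D) (⨅ b, (W b).hodge l) t hU (fun J => by
      rw [Submodule.mem_iInf]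
      exact fun b => ⟨hW J b, halt J⟩)
    refine Submodule.span_mono ?_ h1
    rintro g ⟨α, hα, β, hβ, rfl⟩
    rw [Submodule.mem_iInf] at hβ
    exact ⟨α, hα, β, fun b => (hβ b).1, (hβ b₀).2, rfl⟩
  · intro h b
    exact hodge_flatX Q (T b) (hQ b) hbQ (hbx b) W b d a D t h

end Pool.Agent.W547.VHC
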